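import Mathlib
import Pool.Agent.H73.G.R8.H294ZP.Stmts

open UpperHalfPlane ModularForm Function Filter Topology Matrix.SpecialLinearGroup

open scoped MatrixGroups ModularForm Manifold

namespace H294ZP.TBproof

theorem qq_ne_zero (N : ℕ) (τ : ℍ) : qq N τ ≠ 0 := Complex.exp_ne_zero _

theorem norm_qq (N : ℕ) (τ : ℍ) : ‖qq N τ‖ = Real.exp (-(2 * Real.pi / N * τ.im)) := by
  unfold qq
  rw [Complex.norm_exp]
  congr 1
  have h1 : (2 * (Real.pi : ℂ) * Complex.I * (τ : ℂ) / (N : ℂ)) =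
      ((2 * Real.pi / N : ℝ) : ℂ) * (Complex.I * (τ : ℂ)) := by
    push_cast; ring
  rw [h1, Complex.re_ofReal_mul]
  simp

theorem tendsto_qq (N : ℕ) (hN : 0 < N) : Tendsto (qq N) atImInfty (𝓝 0) := by
  rw [tendsto_zero_iff_norm_tendsto_zero]
  simp_rw [norm_qq]
  have h1 : Tendsto (fun τ : ℍ => 2 * Real.pi / N * τ.im) atImInfty atTop := by
    have h2 : Tendsto (fun τ : ℍ => τ.im) atImInfty atTop := tendsto_comap
    have h3 : (0 : ℝ) < 2 * Real.pi / N := by
      have := Real.pi_pos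
      have : (0 : ℝ) < N := by exact_mod_cast hN
      positivity
    exact h2.const_mul_atTop h3
  exact (Real.tendsto_exp_neg_atTop_nhds_zero).comp h1

theorem series_bound (c : ℕ → ℂ) (T₀ : ℂ) (hT₀ : T₀ ≠ 0)
    (hs : Summable (fun n => c n * T₀ ^ n)) :
    ∃ M : ℝ, ∀ T s : ℂ, ‖T‖ ≤ ‖T₀‖ / 2 → HasSum (fun n => c n * T ^ n) s →
      ‖s - c 0‖ ≤ M * ‖T‖ := by
  have hpos : 0 < ‖T₀‖ := norm_pos_iff.2 hT₀
  obtain ⟨M, hM⟩ := (Metric.isBounded_range_of_tendsto _ hs.tendsto_atTop_zero).exists_norm_le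
  have hM' : ∀ n, ‖c n * T₀ ^ n‖ ≤ M := fun n => hM _ ⟨n, rfl⟩
  have hM0 : 0 ≤ M := (norm_nonneg _).trans (hM' 0)
  refine ⟨M / ‖T₀‖ * 2, fun T s hT h => ?_⟩
  have h1 : HasSum (fun n => c (n + 1) * T ^ (n + 1)) (s - c 0) := by
    have := (hasSum_nat_add_iff' (f := fun n => c n * T ^ n) (g := s) 1).2 h
    simpa using this
  have h2 : HasSum (fun n : ℕ => (M * (‖T‖ / ‖T₀‖)) * (1 / 2 : ℝ) ^ n)
      ((M * (‖T‖ / ‖T₀‖)) * 2) := by
    have := hasSum_geometric_two.mul_left (M * (‖T‖ / ‖T₀‖))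
    simpa using this
  have h3 : ∀ n, ‖c (n + 1) * T ^ (n + 1)‖ ≤ (M * (‖T‖ / ‖T₀‖)) * (1 / 2 : ℝ) ^ n := by
    intro n
    have h4 : ‖T‖ / ‖T₀‖ ≤ 1 / 2 := by
      rw [div_le_iff₀ hpos]; linarith
    have h5 : 0 ≤ ‖T‖ / ‖T₀‖ := by positivity
    calc ‖c (n + 1) * T ^ (n + 1)‖ = ‖c (n + 1) * T₀ ^ (n + 1)‖ * (‖T‖ / ‖T₀‖) ^ (n + 1) := by
          rw [norm_mul, norm_mul, norm_pow, norm_pow, div_pow]
          field_simp
      _ ≤ M * (‖T‖ / ‖T₀‖) ^ (n + 1) := mul_le_mul_of_nonneg_right (hM' _) (by positivity)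
      _ = M * (‖T‖ / ‖T₀‖) * (‖T‖ / ‖T₀‖) ^ n := by ring
      _ ≤ M * (‖T‖ / ‖T₀‖) * (1 / 2 : ℝ) ^ n := by
          apply mul_le_mul_of_nonneg_left (pow_le_pow_left₀ h5 h4 n) (by positivity)
  have h6 := h1.norm_le_of_bounded h2 h3
  refine h6.trans (le_of_eq ?_)
  ring

theorem lau_limit (N m : ℕ) (A : ℂ) (f : ℍ → ℂ) (hN : 0 < N) (h : Lau N m A f) :
    Tendsto (fun τ => qq N τ ^ m * f τ) atImInfty (𝓝 A) := by
  obtain ⟨c, hc0, -, hc⟩ := h
  obtain ⟨M, hM⟩ := series_bound c (qq N I) (qq_ne_zero N I) (hc I).summable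
  rw [tendsto_iff_norm_sub_tendsto_zero]
  have hq := tendsto_qq N hN
  have hq' : Tendsto (fun τ => M * ‖qq N τ‖) atImInfty (𝓝 0) := by
    have := (tendsto_zero_iff_norm_tendsto_zero.1 hq).const_mul M
    simpa using this
  refine squeeze_zero' (Eventually.of_forall fun _ => norm_nonneg _) ?_ hq'
  have hev : ∀ᶠ τ in atImInfty, ‖qq N τ‖ < ‖qq N I‖ / 2 :=
    (tendsto_zero_iff_norm_tendsto_zero.1 hq).eventually_lt_const
      (by have := norm_pos_iff.2 (qq_ne_zero N I); positivity)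
  filter_upwards [hev] with τ hτ
  have := hM (qq N τ) _ hτ.le (hc τ)
  rwa [hc0] at this

theorem const_of_lau_zero (f : ℍ → ℂ) (N : ℕ) (A : ℂ) (hN : 0 < N) (hI : Inv f) (hH : Hol f)
    (h : Lau N 0 A f) : ∀ τ, f τ = A := by
  have hlim : Tendsto f atImInfty (𝓝 A) := by
    have := lau_limit N 0 A f hN h
    simpa using this
  have hslash : ∀ γ : SL(2, ℤ), f ∣[(0 : ℤ)] γ = f := by
    intro γ
    ext τ
    rw [SL_slash_apply]
    simp only [neg_zero, zpow_zero, mul_one]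
    have hdet := γ.det_coe
    rw [Matrix.det_fin_two] at hdet
    apply hI (γ 0 0) (γ 0 1) (γ 1 0) (γ 1 1) hdet τ (γ • τ)
    rw [coe_specialLinearGroup_apply]
    have hd : ((γ 1 0 : ℤ) : ℂ) * (τ : ℂ) + ((γ 1 1 : ℤ) : ℂ) ≠ 0 := by
      have := denom_ne_zero γ τ
      simpa [denom] using this
    simp only [eq_intCast, Complex.ofReal_intCast]
    rw [div_mul_cancel₀ _ hd]
  let g : ModularForm 𝒮ℒ 0 :=
    { toFun := f
      slash_action_eq' := by
        rintro _ ⟨γ, rfl⟩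
        exact hslash γ
      holo' := mdifferentiable_iff.2 hH
      bdd_at_cusps' := by
        intro c hc
        rw [OnePoint.isBoundedAt_iff_forall_SL2Z hc]
        intro γ _
        rw [hslash γ]
        exact hlim.isBigO_one ℝ }
  obtain ⟨c, hc⟩ := ModularFormClass.levelOne_weight_zero_const g
  have hf : f = Function.const ℍ c := hc
  have hcA : c = A := by
    rw [hf] at hlim
    exact tendsto_nhds_unique tendsto_const_nhds hlim
  intro τ
  rw [hf, ← hcA]; rfl

/-- if `N` does not divide `m`, the leading coefficient vanishes -/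
theorem lead_zero (N m : ℕ) (A : ℂ) (f : ℍ → ℂ) (hN : 0 < N) (hI : Inv f) (h : Lau N m A f)
    (hm : ¬ N ∣ m) : A = 0 := by
  have hlim := lau_limit N m A f hN h
  set ζ : ℂ := Complex.exp (2 * Real.pi * Complex.I / N) with hζ
  have hprim : IsPrimitiveRoot ζ N := Complex.isPrimitiveRoot_exp N (by omega)
  have hζm : ζ ^ m ≠ 1 := fun h1 => hm ((hprim.pow_eq_one_iff_dvd m).1 h1)
  have hshift : Tendsto (fun τ : ℍ => (1 : ℝ) +ᵥ τ) atImInfty atImInfty := by
    unfold atImInfty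
    rw [tendsto_comap_iff]
    have : (UpperHalfPlane.im ∘ fun τ : ℍ => (1 : ℝ) +ᵥ τ) = UpperHalfPlane.im := by
      ext τ; simp
    rw [this]
    exact tendsto_comap
  have h1 := hlim.comp hshift
  have h2 : ((fun τ => qq N τ ^ m * f τ) ∘ fun τ : ℍ => (1 : ℝ) +ᵥ τ)
      = fun τ => ζ ^ m * (qq N τ ^ m * f τ) := by
    ext τ
    simp only [comp_apply]
    have h3 : f ((1 : ℝ) +ᵥ τ) = f τ := by
      apply hI 1 1 0 1 (by norm_num) τ
      rw [coe_vadd]; push_cast; ring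
    have h4 : qq N ((1 : ℝ) +ᵥ τ) = ζ * qq N τ := by
      unfold qq
      rw [hζ, ← Complex.exp_add, coe_vadd]
      congr 1
      push_cast; ring
    rw [h3, h4, mul_pow]; ring
  rw [h2] at h1
  have h5 := tendsto_nhds_unique h1 (hlim.const_mul (ζ ^ m))
  have h6 : (ζ ^ m - 1) * A = 0 := by rw [sub_mul, one_mul, ← h5, sub_self]
  rcases mul_eq_zero.1 h6 with h7 | h7
  · exact absurd (sub_eq_zero.1 h7) hζm
  · exact h7

theorem shift_down (N m : ℕ) (f : ℍ → ℂ) (h : Lau N (m + 1) 0 f) : ∃ B, Lau N m B f := by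
  obtain ⟨c, hc0, hci, hc⟩ := h
  refine ⟨c 1, fun n => c (n + 1), rfl, fun n => hci _, fun τ => ?_⟩
  have h1 : HasSum (fun n => c (n + 1) * qq N τ ^ (n + 1)) (qq N τ ^ (m + 1) * f τ) := by
    have := (hasSum_nat_add_iff' (f := fun n => c n * qq N τ ^ n)
      (g := qq N τ ^ (m + 1) * f τ) 1).2 (hc τ)
    simpa [hc0] using this
  have h2 := h1.mul_left (qq N τ)⁻¹
  have hq := qq_ne_zero N τ
  have e1 : (fun n => (fun n => c (n + 1)) n * qq N τ ^ n)
      = fun i => (qq N τ)⁻¹ * (c (i + 1) * qq N τ ^ (i + 1)) := by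
    funext n
    rw [pow_succ]; field_simp
  have e2 : qq N τ ^ m * f τ = (qq N τ)⁻¹ * (qq N τ ^ (m + 1) * f τ) := by
    rw [pow_succ]; field_simp
  rw [e1, e2]
  exact h2

theorem lau_jj (hjj : Lau 1 1 1 jj) (N : ℕ) (hN : 0 < N) : Lau N N 1 jj := by
  obtain ⟨c, hc0, hci, hc⟩ := hjj
  refine ⟨fun n => if N ∣ n then c (n / N) else 0, by simp [hc0], fun n => ?_, fun τ => ?_⟩
  · dsimp only
    split_ifs
    · exact hci _
    · exact isIntegral_zero
  · have hq : qq 1 τ = qq N τ ^ N := by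
      unfold qq
      rw [← Complex.exp_nat_mul]
      congr 1
      have : (N : ℂ) ≠ 0 := by exact_mod_cast hN.ne'
      push_cast; field_simp
    have h1 := hc τ
    rw [hq, pow_one] at h1
    have hinj : Function.Injective (fun n : ℕ => N * n) := fun a b hab =>
      Nat.eq_of_mul_eq_mul_left hN hab
    rw [← hinj.hasSum_iff]
    · convert h1 using 1
      ext n
      simp only [comp_apply, dvd_mul_right, if_true, Nat.mul_div_cancel_left n hN, pow_mul]
    · intro n hn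
      have : ¬ N ∣ n := fun ⟨k, hk⟩ => hn ⟨k, hk.symm⟩
      simp [this]

theorem lau_jj_pow (hC : TC) (hjj : Lau 1 1 1 jj) (N : ℕ) (hN : 0 < N) (k : ℕ) :
    Lau N (N * k) 1 (fun τ => jj τ ^ k) := by
  induction k with
  | zero => simpa using hC.1 N 1 hN isIntegral_one
  | succ k ih =>
    have := hC.2.2.2.1 N (N * k) N 1 1 _ _ hN ih (lau_jj hjj N hN)
    simpa [Nat.mul_succ, pow_succ] using this

theorem inv_sub (f g : ℍ → ℂ) (A : ℂ) (k : ℕ) (hf : Inv f) (hg : Inv g) :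
    Inv (fun τ => f τ + -A * g τ ^ k) := by
  intro a b c d h τ w hw
  simp only [hf a b c d h τ w hw, hg a b c d h τ w hw]

theorem hol_sub (f g : ℍ → ℂ) (A : ℂ) (k : ℕ) (hf : Hol f) (hg : Hol g) :
    Hol (fun τ => f τ + -A * g τ ^ k) := by
  unfold Hol at *
  exact hf.add ((hg.pow k).const_mul (-A))

theorem tb : TaskTB := by
  intro hA hC N hN m
  obtain ⟨hjI, hjH, hjL⟩ := hA
  induction m using Nat.strong_induction_on with
  | _ m ih =>
  intro A f hI hH hL
  have hAint : IsIntegral ℤ A := by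
    obtain ⟨c, hc0, hci, -⟩ := hL
    rw [← hc0]; exact hci 0
  rcases Nat.eq_zero_or_pos m with rfl | hm
  · refine ⟨Polynomial.C A, fun k => ?_, fun τ => ?_, fun _ => dvd_zero N, by simp, fun _ => by simp⟩
    · rw [Polynomial.coeff_C]; split_ifs
      · exact hAint
      · exact isIntegral_zero
    · rw [Polynomial.eval_C]; exact const_of_lau_zero f N A hN hI hH hL τ
  · obtain ⟨m', rfl⟩ : ∃ m', m = m' + 1 := ⟨m - 1, by omega⟩
    by_cases hd : N ∣ m' + 1
    · obtain ⟨k, hk⟩ := hd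
      have hk0 : 0 < k := by
        rcases Nat.eq_zero_or_pos k with rfl | h
        · simp at hk
        · exact h
      have hdiv : (m' + 1) / N = k := by rw [hk]; exact Nat.mul_div_cancel_left k hN
      have hpow : Lau N (m' + 1) 1 (fun τ => jj τ ^ k) := by
        rw [hk]; exact lau_jj_pow hC hjL N hN k
      have hcst : Lau N 0 (-A) (fun _ => -A) := hC.1 N (-A) hN hAint.neg
      have h1 := hC.2.2.2.1 N 0 (m' + 1) (-A) 1 _ _ hN hcst hpow
      rw [zero_add, mul_one] at h1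
      have h2 := hC.2.2.1 N (m' + 1) A (-A) _ _ hN hL h1
      rw [add_neg_cancel] at h2
      obtain ⟨B, hB⟩ := shift_down N m' _ h2
      obtain ⟨P, hPi, hPe, -, hPd, -⟩ := ih m' (by omega) B _
        (inv_sub f jj A k hI hjI) (hol_sub f jj A k hH hjH) hB
      have hlt : P.natDegree < k := by
        refine lt_of_le_of_lt hPd ?_
        rw [Nat.div_lt_iff_lt_mul hN, mul_comm k N, ← hk]; omega
      refine ⟨P + Polynomial.C A * Polynomial.X ^ k, fun i => ?_, fun τ => ?_,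
        fun _ => ⟨k, hk⟩, ?_, fun _ => ?_⟩
      · rw [Polynomial.coeff_add, Polynomial.coeff_C_mul_X_pow]
        refine (hPi i).add ?_
        split_ifs
        · exact hAint
        · exact isIntegral_zero
      · have := hPe τ
        simp only [Polynomial.eval_add, Polynomial.eval_mul, Polynomial.eval_C,
          Polynomial.eval_pow, Polynomial.eval_X]
        rw [← this]; ring
      · rw [hdiv]
        refine (Polynomial.natDegree_add_le _ _).trans (max_le hlt.le ?_)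
        exact Polynomial.natDegree_C_mul_X_pow_le A k
      · rw [hdiv, Polynomial.coeff_add, Polynomial.coeff_C_mul_X_pow, if_pos rfl,
          Polynomial.coeff_eq_zero_of_natDegree_lt hlt, zero_add]
    · have hA0 : A = 0 := lead_zero N (m' + 1) A f hN hI hL hd
      subst hA0
      obtain ⟨B, hB⟩ := shift_down N m' f hL
      obtain ⟨P, hPi, hPe, -, hPd, -⟩ := ih m' (by omega) B f hI hH hB
      exact ⟨P, hPi, hPe, fun h => absurd rfl h,
        hPd.trans (Nat.div_le_div_right (by omega)), fun h => absurd h hd⟩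

end H294ZP.TBproof
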