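import Pool.Agent.H73.G.R8.H294ZP.Stmts

/-! Task TD of H294-ZP (helper782): `j (g τ)` is integral over `ℤ[j τ]`. -/

open UpperHalfPlane ModularForm Function

namespace H294ZP

namespace TDaux

theorem Hol.const (A : ℂ) : Hol (fun _ => A) := by
  unfold Hol
  exact differentiableOn_const A

theorem Hol.add {f g : ℍ → ℂ} (hf : Hol f) (hg : Hol g) : Hol (fun τ => f τ + g τ) :=
  DifferentiableOn.add hf hg

theorem Hol.mul {f g : ℍ → ℂ} (hf : Hol f) (hg : Hol g) : Hol (fun τ => f τ * g τ) :=
  DifferentiableOn.mul hf hg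

end TDaux

end H294ZP
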