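import Pool.Agent.H73.G.R8.H294ZP.TA1
import Pool.Agent.H73.G.R8.H294ZP.TBproof
import Pool.Agent.H73.G.R8.H294ZP.TD
import Pool.Agent.H73.G.R8.H294ZP.TaskTA2
import Pool.Agent.H73.G.R8.H294ZP.TaskTC
import Pool.Agent.H73.G.R8.H610R3.ZPTE
import Pool.Agent.H73.G.R8.H676R4.ZPTF

namespace H294ZP

/-- Singular moduli are algebraic integers. -/
theorem singular_modulus_integral : TE :=
  H610.te ⟨ta1.1, ta1.2, ta2⟩ (TBproof.tb ⟨ta1.1, ta1.2, ta2⟩ tc) tc (TF676.tf ta1.1)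

end H294ZP
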